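import Mathlib
import Pool.Agent.Lib.helper29.ConfDim

set_option autoImplicit false

namespace Pool.Agent.Results.MP_d6bd81_co.DualDim

open Pool.Agent.Lib.H29.ConfDim

/-- There is a balanced configuration (43_4) of dimension 2 whose dual has a realization with
3-dimensional affine hull. -/
theorem result : ∃ I : Fin 43 → Fin 43 → Prop, IsBalanced 4 I ∧ IsGreatest (hullDims I) 2 ∧
    3 ∈ hullDims fun i j => I j i :=
  ⟨II, balanced, ⟨two_mem, fun _ hd => le_two hd⟩, three_mem⟩

end Pool.Agent.Results.MP_d6bd81_co.DualDim
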